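import Mathlib

set_option autoImplicit false

/-!
The three-row gadget. Three rows of the cyclic square of odd order `n` are permuted column by
column so that two cells of the middle row are forced out of all zero-sum triples.
-/

namespace Pool.Agent.Helper84.LatinLog

/-- The cycle `0 → 1 → 2 → 0`. -/
def cyc : Equiv.Perm (Fin 3) where
  toFun i := i + 1
  invFun i := i + 2
  left_inv := by decide
  right_inv := by decide

/-- The cycle `0 → 2 → 1 → 0`. -/
def cyc' : Equiv.Perm (Fin 3) where
  toFun i := i + 2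
  invFun i := i + 1
  left_inv := by decide
  right_inv := by decide

/-- The label permutation of the three rows in the column with number `v`. -/
def piN (v : ℕ) : Equiv.Perm (Fin 3) :=
  if v = 0 then cyc else if v = 1 then cyc' else if v % 2 = 1 then Equiv.swap 0 2 else 1

/-- The label permutation in the column `c`. -/
def pi {n : ℕ} (c : ZMod n) : Equiv.Perm (Fin 3) := piN c.val

/-- The symbol (a natural number) of row `i` in column number `v`. -/
def w (i : Fin 3) (v : ℕ) : ℕ := (piN v i : ℕ) + v

theorem w_zero (v : ℕ) : w 0 v = if v = 0 then 1 else if v % 2 = 1 then v + 2 else v := by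
  unfold w piN
  by_cases h0 : v = 0
  · subst h0; rfl
  by_cases h1 : v = 1
  · subst h1; rfl
  rw [if_neg h0, if_neg h1, if_neg h0]
  by_cases h2 : v % 2 = 1
  · rw [if_pos h2, if_pos h2, Equiv.swap_apply_left]
    show 2 + v = v + 2
    omega
  · rw [if_neg h2, if_neg h2]
    show 0 + v = v
    omega

theorem w_one (v : ℕ) : w 1 v = if v = 0 then 2 else if v = 1 then 1 else v + 1 := by
  unfold w piN
  by_cases h0 : v = 0
  · subst h0; rfl
  by_cases h1 : v = 1
  · subst h1; rfl
  rw [if_neg h0, if_neg h1, if_neg h0, if_neg h1]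
  by_cases h2 : v % 2 = 1
  · rw [if_pos h2, Equiv.swap_apply_of_ne_of_ne (by decide) (by decide)]
    show 1 + v = v + 1
    omega
  · rw [if_neg h2]
    show 1 + v = v + 1
    omega

theorem w_two (v : ℕ) : w 2 v = if v = 0 then 0 else if v = 1 then 2 else
    if v % 2 = 1 then v else v + 2 := by
  unfold w piN
  by_cases h0 : v = 0
  · subst h0; rfl
  by_cases h1 : v = 1
  · subst h1; rfl
  rw [if_neg h0, if_neg h1, if_neg h0, if_neg h1]
  by_cases h2 : v % 2 = 1
  · rw [if_pos h2, if_pos h2, Equiv.swap_apply_right]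
    show 0 + v = v
    omega
  · rw [if_neg h2, if_neg h2]
    show 2 + v = v + 2
    omega

theorem cast_inj_of_window {n a b k : ℕ} (ha : k ≤ a) (ha' : a < k + n) (hb : k ≤ b)
    (hb' : b < k + n) (h : (a : ZMod n) = (b : ZMod n)) : a = b := by
  have h1 : a ≡ b [MOD n] := (ZMod.natCast_eq_natCast_iff a b n).1 h
  rcases le_total a b with hab | hab
  · obtain ⟨t, ht⟩ := (Nat.modEq_iff_dvd' hab).1 h1
    have : t = 0 := by
      rcases Nat.eq_zero_or_pos t with h | h
      · exact h
      · exfalso
        have : n ≤ n * t := Nat.le_mul_of_pos_right n h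
        omega
    rw [this] at ht
    omega
  · obtain ⟨t, ht⟩ := (Nat.modEq_iff_dvd' hab).1 h1.symm
    have : t = 0 := by
      rcases Nat.eq_zero_or_pos t with h | h
      · exact h
      · exfalso
        have : n ≤ n * t := Nat.le_mul_of_pos_right n h
        omega
    rw [this] at ht
    omega

/-- Row injectivity of the gadget. -/
theorem row_inj {n : ℕ} [NeZero n] (hn : Odd n) (i : Fin 3) :
    Function.Injective (fun c : ZMod n => (((pi c i : ℕ) : ZMod n) + c)) := by
  obtain ⟨t, ht⟩ := hn
  intro a b hab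
  have key : ∀ c : ZMod n, (((pi c i : ℕ) : ZMod n) + c) = ((w i c.val : ℕ) : ZMod n) := by
    intro c
    unfold w pi
    rw [Nat.cast_add, ZMod.natCast_zmod_val]
  have hab' : ((w i a.val : ℕ) : ZMod n) = ((w i b.val : ℕ) : ZMod n) := by
    rw [← key, ← key]; exact hab
  have hav : a.val < n := ZMod.val_lt a
  have hbv : b.val < n := ZMod.val_lt b
  apply ZMod.val_injective n
  generalize a.val = x at *
  generalize b.val = y at *
  fin_cases i
  · have hx : w 0 x = if x = 0 then 1 else if x % 2 = 1 then x + 2 else x := w_zero x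
    have hy : w 0 y = if y = 0 then 1 else if y % 2 = 1 then y + 2 else y := w_zero y
    have h1 : w 0 x = w 0 y := by
      apply cast_inj_of_window (n := n) (k := 1) _ _ _ _ hab'
      · show 1 ≤ w 0 x
        rw [hx]; split_ifs <;> omega
      · show w 0 x < 1 + n
        rw [hx]; split_ifs <;> omega
      · show 1 ≤ w 0 y
        rw [hy]; split_ifs <;> omega
      · show w 0 y < 1 + n
        rw [hy]; split_ifs <;> omega
    rw [hx, hy] at h1
    split_ifs at h1 <;> omega
  · have hx : w 1 x = if x = 0 then 2 else if x = 1 then 1 else x + 1 := w_one x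
    have hy : w 1 y = if y = 0 then 2 else if y = 1 then 1 else y + 1 := w_one y
    by_cases hn1 : n = 1
    · omega
    have h1 : w 1 x = w 1 y := by
      apply cast_inj_of_window (n := n) (k := 1) _ _ _ _ hab'
      · show 1 ≤ w 1 x
        rw [hx]; split_ifs <;> omega
      · show w 1 x < 1 + n
        rw [hx]; split_ifs <;> omega
      · show 1 ≤ w 1 y
        rw [hy]; split_ifs <;> omega
      · show w 1 y < 1 + n
        rw [hy]; split_ifs <;> omega
    rw [hx, hy] at h1
    split_ifs at h1 <;> omega
  · have hx : w 2 x = if x = 0 then 0 else if x = 1 then 2 else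
        if x % 2 = 1 then x else x + 2 := w_two x
    have hy : w 2 y = if y = 0 then 0 else if y = 1 then 2 else
        if y % 2 = 1 then y else y + 2 := w_two y
    by_cases hn1 : n = 1
    · omega
    have hz : ∀ v : ℕ, ((w 2 v : ℕ) : ZMod n) = ((if v = 0 then n else w 2 v : ℕ) : ZMod n) := by
      intro v
      by_cases hv : v = 0
      · rw [if_pos hv, hv, w_two 0, if_pos rfl, ZMod.natCast_self, Nat.cast_zero]
      · rw [if_neg hv]
    have hab2 : (((if x = 0 then n else w 2 x : ℕ)) : ZMod n)
        = (((if y = 0 then n else w 2 y : ℕ)) : ZMod n) := by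
      rw [← hz, ← hz]; exact hab'
    have h1 : (if x = 0 then n else w 2 x) = (if y = 0 then n else w 2 y) := by
      apply cast_inj_of_window (n := n) (k := 2) _ _ _ _ hab2
      · rw [hx]; split_ifs <;> omega
      · rw [hx]; split_ifs <;> omega
      · rw [hy]; split_ifs <;> omega
      · rw [hy]; split_ifs <;> omega
    rw [hx, hy] at h1
    split_ifs at h1 <;> omega

/-- The integer deviation of row `i` of the gadget in the column `c`. -/
def dev {n : ℕ} (c : ZMod n) (i : Fin 3) : ℤ := ((pi c i : ℕ) : ℤ) - ((i : ℕ) : ℤ)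

theorem dev_sum_le {n : ℕ} (a b c : ZMod n) : |dev a 0 + dev b 1 + dev c 2| ≤ 3 := by
  unfold dev
  have h0 : ((pi a 0 : Fin 3) : ℕ) < 3 := (pi a 0).isLt
  have h1 : ((pi b 1 : Fin 3) : ℕ) < 3 := (pi b 1).isLt
  have h2 : ((pi c 2 : Fin 3) : ℕ) < 3 := (pi c 2).isLt
  have e0 : ((0 : Fin 3) : ℕ) = 0 := rfl
  have e1 : ((1 : Fin 3) : ℕ) = 1 := rfl
  have e2 : ((2 : Fin 3) : ℕ) = 2 := rfl
  rw [e0, e1, e2, abs_le]
  constructor <;> omega

theorem pi_of_val {n : ℕ} (c : ZMod n) (i : Fin 3) : (pi c i : ℕ) + c.val = w i c.val := rfl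

/-- The two cells of the middle row of the gadget in the columns `0` and `1` lie in no
zero-sum triple with pairwise different columns and symbols. -/
theorem gadget_free {n : ℕ} [NeZero n] (hn : 3 ≤ n) (c : Fin 3 → ZMod n)
    (hc : Function.Injective c)
    (hs : Function.Injective (fun i : Fin 3 => (((pi (c i) i : ℕ) : ZMod n) + c i)))
    (h0 : dev (c 0) 0 + dev (c 1) 1 + dev (c 2) 2 = 0) : c 1 ≠ 0 ∧ c 1 ≠ 1 := by
  have hv : Function.Injective (fun i : Fin 3 => (c i).val) := fun i j h =>
    hc (ZMod.val_injective n h)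
  have hsw : ∀ i j : Fin 3, w i (c i).val = w j (c j).val → i = j := by
    intro i j h
    apply hs
    show (((pi (c i) i : ℕ) : ZMod n) + c i) = (((pi (c j) j : ℕ) : ZMod n) + c j)
    have key : ∀ i : Fin 3, (((pi (c i) i : ℕ) : ZMod n) + c i)
        = ((w i (c i).val : ℕ) : ZMod n) := by
      intro i
      rw [← pi_of_val, Nat.cast_add, ZMod.natCast_zmod_val]
    rw [key, key, h]
  have hd : ∀ i : Fin 3, dev (c i) i = (w i (c i).val : ℤ) - ((c i).val : ℤ) - ((i : ℕ) : ℤ) := by
    intro i
    have := pi_of_val (c i) i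
    unfold dev
    omega
  have g0 := hd 0
  have g1 := hd 1
  have g2 := hd 2
  have k0 := w_zero (c 0).val
  have k1 := w_one (c 1).val
  have k2 := w_two (c 2).val
  have v01 : (c 0).val ≠ (c 1).val := fun h => absurd (hv h) (by decide)
  have v12 : (c 1).val ≠ (c 2).val := fun h => absurd (hv h) (by decide)
  have s01 : w 0 (c 0).val ≠ w 1 (c 1).val := fun h => absurd (hsw 0 1 h) (by decide)
  have s12 : w 1 (c 1).val ≠ w 2 (c 2).val := fun h => absurd (hsw 1 2 h) (by decide)
  have e0 : (((0 : Fin 3) : ℕ) : ℤ) = 0 := rfl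
  have e1 : (((1 : Fin 3) : ℕ) : ℤ) = 1 := rfl
  have e2 : (((2 : Fin 3) : ℕ) : ℤ) = 2 := rfl
  rw [e0] at g0
  rw [e1] at g1
  rw [e2] at g2
  constructor
  · intro h
    have hz : (c 1).val = 0 := by rw [h, ZMod.val_zero]
    generalize (c 0).val = x0 at *
    generalize (c 1).val = x1 at *
    generalize (c 2).val = x2 at *
    subst hz
    rw [if_pos rfl] at k1
    split_ifs at k0 k2 <;> omega
  · intro h
    have hz : (c 1).val = 1 := by
      rw [h]
      have : Fact (1 < n) := ⟨by omega⟩
      exact ZMod.val_one n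
    generalize (c 0).val = x0 at *
    generalize (c 1).val = x1 at *
    generalize (c 2).val = x2 at *
    subst hz
    rw [if_neg (by norm_num), if_pos rfl] at k1
    split_ifs at k0 k2 <;> omega

end Pool.Agent.Helper84.LatinLog
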