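import Pool.Agent.Helper84_LatinLog.Base
import Pool.Agent.TransFree.Even

set_option autoImplicit false

/-!
`M(n) ≥ 2 ⌊log₄ n⌋` for all odd `n`: the gadget of `Base` is applied to the rows
`4^g, 2·4^g, 3·4^g` of the cyclic square for all `g < ⌊log₄ n⌋`. The total displacement of a
transversal is zero, it is smaller than `n` in absolute value, and its base four digits are the
displacements of the single gadgets.
-/

namespace Pool.Agent.Helper84.LatinLog

open Finset

/-- Integers `s g` with `|s g| ≤ 3` are determined by `∑ 4^g s g = 0`. -/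
theorem digits_zero : ∀ (G : ℕ) (s : Fin G → ℤ), (∀ g, |s g| ≤ 3) →
    ∑ g : Fin G, (4 : ℤ) ^ (g : ℕ) * s g = 0 → ∀ g, s g = 0 := by
  intro G
  induction G with
  | zero => intro s _ _ g; exact g.elim0
  | succ G ih =>
    intro s hs h
    have e : ∑ g : Fin (G + 1), (4 : ℤ) ^ (g : ℕ) * s g
        = s 0 + 4 * ∑ g : Fin G, (4 : ℤ) ^ (g : ℕ) * s g.succ := by
      rw [Fin.sum_univ_succ, Finset.mul_sum]
      congr 1
      · rw [Fin.val_zero, pow_zero, one_mul]
      · apply Finset.sum_congr rfl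
        intro g _
        rw [Fin.val_succ, pow_succ]
        ring
    rw [e] at h
    have h0 := abs_le.1 (hs 0)
    have hz : s 0 = 0 := by omega
    have hr : ∑ g : Fin G, (4 : ℤ) ^ (g : ℕ) * s g.succ = 0 := by omega
    intro g
    refine Fin.cases hz (fun i => ?_) g
    exact ih (fun i => s i.succ) (fun i => hs i.succ) hr i

theorem digits_bound : ∀ (G : ℕ) (s : Fin G → ℤ), (∀ g, |s g| ≤ 3) →
    |∑ g : Fin G, (4 : ℤ) ^ (g : ℕ) * s g| ≤ 4 ^ G - 1 := by
  intro G
  induction G with
  | zero => intro s _; simp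
  | succ G ih =>
    intro s hs
    have e : ∑ g : Fin (G + 1), (4 : ℤ) ^ (g : ℕ) * s g
        = s 0 + 4 * ∑ g : Fin G, (4 : ℤ) ^ (g : ℕ) * s g.succ := by
      rw [Fin.sum_univ_succ, Finset.mul_sum]
      congr 1
      · rw [Fin.val_zero, pow_zero, one_mul]
      · apply Finset.sum_congr rfl
        intro g _
        rw [Fin.val_succ, pow_succ]
        ring
    rw [e]
    have h0 := abs_le.1 (hs 0)
    have h1 := abs_le.1 (ih (fun i => s i.succ) (fun i => hs i.succ))
    have h2 : (4 : ℤ) ^ (G + 1) = 4 * 4 ^ G := by rw [pow_succ]; ring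
    rw [h2, abs_le]
    constructor
    · linarith [h1.1, h0.1]
    · linarith [h1.2, h0.2]

/-- The rows of the gadgets, as natural numbers. -/
def keyN (g i : ℕ) : ℕ := 4 ^ g * (i + 1)

theorem keyN_lt {G n g i : ℕ} (hG : 4 ^ G ≤ n) (hg : g < G) (hi : i < 3) : keyN g i < n := by
  have h1 : 4 ^ g * (i + 1) < 4 ^ g * 4 :=
    Nat.mul_lt_mul_of_pos_left (by omega) (Nat.pos_of_ne_zero (by positivity))
  have h2 : 4 ^ g * 4 ≤ 4 ^ G := by
    rw [← pow_succ]
    exact Nat.pow_le_pow_right (by norm_num) hg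
  unfold keyN
  omega

theorem keyN_inj {g i g' i' : ℕ} (hi : i < 3) (hi' : i' < 3) (h : keyN g i = keyN g' i') :
    g = g' ∧ i = i' := by
  have key : ∀ {g i g' i' : ℕ}, i < 3 → keyN g i = keyN g' i' → ¬ g < g' := by
    intro g i g' i' hi h hlt
    unfold keyN at h
    have h1 : 4 ^ g * 4 ≤ 4 ^ g' := by
      rw [← pow_succ]
      exact Nat.pow_le_pow_right (by norm_num) hlt
    have h2 : 4 ^ g * (i + 1) < 4 ^ g * 4 :=
      Nat.mul_lt_mul_of_pos_left (by omega) (Nat.pos_of_ne_zero (by positivity))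
    have h3 : 4 ^ g' ≤ 4 ^ g' * (i' + 1) := Nat.le_mul_of_pos_right _ (by omega)
    omega
  have hg : g = g' := by
    have h1 := key hi h
    have h2 := key hi' h.symm
    omega
  refine ⟨hg, ?_⟩
  subst hg
  unfold keyN at h
  have := Nat.eq_of_mul_eq_mul_left (Nat.pos_of_ne_zero (by positivity)) h
  omega

section

variable {n : ℕ}

/-- The rows of the gadgets. -/
def key (n G : ℕ) (p : Fin G × Fin 3) : ZMod n := ((keyN p.1 p.2 : ℕ) : ZMod n)

theorem key_inj {G : ℕ} (hG : 4 ^ G ≤ n) : Function.Injective (key n G) := by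
  rintro ⟨g, i⟩ ⟨g', i'⟩ h
  have h1 : keyN g i = keyN g' i' := by
    apply cast_inj_of_window (n := n) (k := 0) (Nat.zero_le _) _ (Nat.zero_le _) _ h
    · rw [zero_add]; exact keyN_lt hG g.isLt i.isLt
    · rw [zero_add]; exact keyN_lt hG g'.isLt i'.isLt
  obtain ⟨h2, h3⟩ := keyN_inj i.isLt i'.isLt h1
  rw [Fin.ext h2, Fin.ext h3]

theorem key_eq (G : ℕ) (g : Fin G) (i : Fin 3) :
    key n G (g, i) = (4 : ZMod n) ^ (g : ℕ) * (((i : ℕ) : ZMod n) + 1) := by
  unfold key keyN
  push_cast
  rfl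

/-- `4` as a unit modulo an odd number. -/
def four (hn : Odd n) : (ZMod n)ˣ :=
  ZMod.unitOfCoprime 4 (by
    have h : Nat.Coprime (2 ^ 2) n :=
      Nat.Coprime.pow_left 2 (Nat.coprime_two_left.2 hn)
    exact h)

theorem four_val (hn : Odd n) : ((four hn : (ZMod n)ˣ) : ZMod n) = 4 := by
  unfold four
  rw [ZMod.coe_unitOfCoprime]
  norm_num

theorem four_pow_val (hn : Odd n) (g : ℕ) : (((four hn) ^ g : (ZMod n)ˣ) : ZMod n) = 4 ^ g := by
  rw [Units.val_pow_eq_pow_val, four_val]

/-- The column number seen by the gadget `g`. -/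
def red (hn : Odd n) (g : ℕ) (c : ZMod n) : ZMod n := (((four hn) ^ g)⁻¹ : (ZMod n)ˣ) * c

theorem pow_mul_red (hn : Odd n) (g : ℕ) (c : ZMod n) : (4 : ZMod n) ^ g * red hn g c = c := by
  unfold red
  rw [← four_pow_val hn g, ← mul_assoc, Units.mul_inv, one_mul]

theorem red_inj (hn : Odd n) (g : ℕ) : Function.Injective (red hn g) := by
  intro a b h
  rw [← pow_mul_red hn g a, ← pow_mul_red hn g b, h]

theorem mul_pow_inj (hn : Odd n) (g : ℕ) {a b : ZMod n}
    (h : (4 : ZMod n) ^ g * a = (4 : ZMod n) ^ g * b) : a = b := by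
  rw [← four_pow_val hn g] at h
  exact (Units.mul_right_inj _).1 h

theorem red_zero (hn : Odd n) (g : ℕ) : red hn g 0 = 0 := by
  unfold red; rw [mul_zero]

theorem red_pow (hn : Odd n) (g : ℕ) : red hn g (4 ^ g) = 1 := by
  unfold red
  rw [← four_pow_val hn g, Units.inv_mul]

/-- The label permutation on the gadget rows in the column `c`. -/
def inner (hn : Odd n) (G : ℕ) (c : ZMod n) : Equiv.Perm (Fin G × Fin 3) :=
  Equiv.prodCongrRight (fun g : Fin G => pi (red hn g c))

variable [NeZero n]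

/-- The label permutation in the column `c`. -/
noncomputable def theta (hn : Odd n) {G : ℕ} (hG : 4 ^ G ≤ n) (c : ZMod n) :
    Equiv.Perm (ZMod n) :=
  (inner hn G c).viaFintypeEmbedding ⟨key n G, key_inj hG⟩

theorem theta_key (hn : Odd n) {G : ℕ} (hG : 4 ^ G ≤ n) (c : ZMod n) (g : Fin G) (i : Fin 3) :
    theta hn hG c (key n G (g, i)) = key n G (g, pi (red hn g c) i) :=
  Equiv.Perm.viaFintypeEmbedding_apply_image (inner hn G c) ⟨key n G, key_inj hG⟩ (g, i)

theorem theta_other (hn : Odd n) {G : ℕ} (hG : 4 ^ G ≤ n) (c : ZMod n) {r : ZMod n}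
    (hr : r ∉ Set.range (key n G)) : theta hn hG c r = r :=
  Equiv.Perm.viaFintypeEmbedding_apply_notMem_range (inner hn G c) ⟨key n G, key_inj hG⟩ hr

theorem sum_all (hn : Odd n) : ∑ r : ZMod n, r = 0 := by
  have h1 : ∑ r : ZMod n, r = ∑ r : ZMod n, -r :=
    (Equiv.sum_comp (Equiv.neg (ZMod n)) (fun r => r)).symm
  rw [Finset.sum_neg_distrib] at h1
  have h2 : (2 : ZMod n) * ∑ r : ZMod n, r = 2 * 0 := by
    rw [mul_zero, two_mul]
    exact eq_neg_iff_add_eq_zero.1 h1
  have h3 : (4 : ZMod n) ^ 1 * ∑ r : ZMod n, r = (4 : ZMod n) ^ 1 * 0 := by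
    rw [pow_one, mul_zero, show (4 : ZMod n) = 2 * 2 by norm_num, mul_assoc, h2]
    norm_num
  exact mul_pow_inj hn 1 h3

/-- The symbol in a gadget cell. -/
theorem sym_key (hn : Odd n) {G : ℕ} (hG : 4 ^ G ≤ n) (c : ZMod n) (g : Fin G) (i : Fin 3) :
    theta hn hG c (key n G (g, i)) + c = (4 : ZMod n) ^ (g : ℕ) *
      ((((pi (red hn g c) i : ℕ) : ZMod n) + red hn g c) + 1) := by
  rw [theta_key, key_eq]
  have h : (4 : ZMod n) ^ (g : ℕ) * (((((pi (red hn g c) i : Fin 3) : ℕ) : ZMod n)
      + red hn g c) + 1)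
      = (4 : ZMod n) ^ (g : ℕ) * ((((pi (red hn g c) i : Fin 3) : ℕ) : ZMod n) + 1)
        + (4 : ZMod n) ^ (g : ℕ) * red hn g c := by ring
  rw [h, pow_mul_red]

theorem row_injective (hn : Odd n) {G : ℕ} (hG : 4 ^ G ≤ n) (r : ZMod n) :
    Function.Injective (fun c => theta hn hG c r + c) := by
  intro a b hab
  by_cases hr : r ∈ Set.range (key n G)
  · obtain ⟨⟨g, i⟩, rfl⟩ := hr
    have h1 : theta hn hG a (key n G (g, i)) + a = theta hn hG b (key n G (g, i)) + b := hab
    rw [sym_key, sym_key] at h1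
    have h2 := add_right_cancel (mul_pow_inj hn g h1)
    exact red_inj hn g (row_inj hn i h2)
  · have h1 : theta hn hG a r + a = theta hn hG b r + b := hab
    rw [theta_other hn hG a hr, theta_other hn hG b hr] at h1
    exact add_left_cancel h1

theorem displacement (hn : Odd n) {G : ℕ} (hG : 4 ^ G ≤ n) (σ : ZMod n → ZMod n)
    (hσ : Function.Injective σ) (hL : Function.Injective (fun r => theta hn hG (σ r) r + σ r)) :
    ∀ g : Fin G, dev (red hn g (σ (key n G (g, 0)))) 0 + dev (red hn g (σ (key n G (g, 1)))) 1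
      + dev (red hn g (σ (key n G (g, 2)))) 2 = 0 := by
  classical
  have bσ : Function.Bijective σ := Finite.injective_iff_bijective.1 hσ
  have bL : Function.Bijective (fun r => theta hn hG (σ r) r + σ r) :=
    Finite.injective_iff_bijective.1 hL
  have e1 : ∑ r, σ r = ∑ x : ZMod n, x := bσ.sum_comp (fun x => x)
  have e2 : ∑ r, (theta hn hG (σ r) r + σ r) = ∑ x : ZMod n, x := bL.sum_comp (fun x => x)
  rw [Finset.sum_add_distrib, e1] at e2
  have e3 : ∑ r, theta hn hG (σ r) r = 0 := add_eq_right.1 e2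
  have e4 : ∑ r, (theta hn hG (σ r) r - r) = 0 := by
    rw [Finset.sum_sub_distrib, e3, sum_all hn, sub_zero]
  have e5 : ∑ p : Fin G × Fin 3, (theta hn hG (σ (key n G p)) (key n G p) - key n G p) = 0 := by
    rw [← e4]
    apply Finset.sum_of_injOn (key n G) ((key_inj hG).injOn)
    · intro p _
      exact mem_coe.2 (mem_univ _)
    · intro r _ hr
      have hr' : r ∉ Set.range (key n G) := by
        intro h
        apply hr
        obtain ⟨p, hp⟩ := h
        exact ⟨p, mem_coe.2 (mem_univ _), hp⟩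
      rw [theta_other hn hG _ hr', sub_self]
    · intro p _
      rfl
  have e6 : ∀ p : Fin G × Fin 3, theta hn hG (σ (key n G p)) (key n G p) - key n G p
      = (((4 : ℤ) ^ (p.1 : ℕ) * dev (red hn p.1 (σ (key n G p))) p.2 : ℤ) : ZMod n) := by
    rintro ⟨g, i⟩
    rw [theta_key, key_eq, key_eq]
    unfold dev
    push_cast
    ring
  have e7 : ((∑ g : Fin G, (4 : ℤ) ^ (g : ℕ) *
      (dev (red hn g (σ (key n G (g, 0)))) 0 + dev (red hn g (σ (key n G (g, 1)))) 1
      + dev (red hn g (σ (key n G (g, 2)))) 2) : ℤ) : ZMod n) = 0 := by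
    rw [← e5, Fintype.sum_prod_type, Int.cast_sum]
    apply Finset.sum_congr rfl
    intro g _
    rw [Fin.sum_univ_three, e6, e6, e6]
    push_cast
    ring
  have hs : ∀ g : Fin G, |dev (red hn g (σ (key n G (g, 0)))) 0
      + dev (red hn g (σ (key n G (g, 1)))) 1
      + dev (red hn g (σ (key n G (g, 2)))) 2| ≤ 3 := fun g => dev_sum_le _ _ _
  apply digits_zero G _ hs
  have hb := digits_bound G _ hs
  rw [ZMod.intCast_zmod_eq_zero_iff_dvd] at e7
  apply Int.eq_zero_of_abs_lt_dvd e7
  have h1 : ((4 : ℤ) ^ G) ≤ (n : ℤ) := by exact_mod_cast hG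
  linarith

theorem free (hn : Odd n) {G : ℕ} (hG : 4 ^ G ≤ n) (σ : ZMod n → ZMod n)
    (hσ : Function.Injective σ) (hL : Function.Injective (fun r => theta hn hG (σ r) r + σ r))
    (g : Fin G) : σ (key n G (g, 1)) ≠ 0 ∧ σ (key n G (g, 1)) ≠ 4 ^ (g : ℕ) := by
  have hn3 : 3 ≤ n := by
    have h1 : 4 ^ 1 ≤ 4 ^ G := Nat.pow_le_pow_right (by norm_num) (by have := g.isLt; omega)
    omega
  have h := gadget_free hn3 (fun i => red hn g (σ (key n G (g, i)))) ?_ ?_
    (displacement hn hG σ hσ hL g)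
  · constructor
    · intro h0
      apply h.1
      show red hn g (σ (key n G (g, 1))) = 0
      rw [h0, red_zero]
    · intro h0
      apply h.2
      show red hn g (σ (key n G (g, 1))) = 1
      rw [h0, red_pow]
  · intro i j hij
    have h1 := key_inj hG (hσ (red_inj hn g hij))
    exact congrArg Prod.snd h1
  · intro i j hij
    have h1 : (fun r => theta hn hG (σ r) r + σ r) (key n G (g, i))
        = (fun r => theta hn hG (σ r) r + σ r) (key n G (g, j)) := by
      show theta hn hG (σ (key n G (g, i))) (key n G (g, i)) + σ (key n G (g, i))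
        = theta hn hG (σ (key n G (g, j))) (key n G (g, j)) + σ (key n G (g, j))
      rw [sym_key, sym_key]
      have h2 : ((((pi (red hn g (σ (key n G (g, i)))) i : Fin 3) : ℕ) : ZMod n)
          + red hn g (σ (key n G (g, i)))) = ((((pi (red hn g (σ (key n G (g, j)))) j : Fin 3) : ℕ)
          : ZMod n) + red hn g (σ (key n G (g, j)))) := hij
      rw [h2]
    have h2 := key_inj hG (hL h1)
    exact congrArg Prod.snd h2

end

/-- For odd `n` some latin square of order `n` has at least `2 ⌊log₄ n⌋` entries lying in no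
transversal. -/
theorem odd_bound (n : ℕ) (hn : Odd n) (G : ℕ) (hG : 4 ^ G ≤ n) :
    ∃ L : Fin n → Fin n → Fin n,
      (∀ i, Function.Injective (L i)) ∧
      (∀ j, Function.Injective (fun i => L i j)) ∧
      2 * G ≤ ({p : Fin n × Fin n |
              ¬ ∃ σ : Equiv.Perm (Fin n),
                  Function.Injective (fun i : Fin n => L i (σ i)) ∧ σ p.1 = p.2}).ncard := by
  classical
  have : NeZero n := ⟨by rintro rfl; simp at hn⟩
  let f : Fin G × Bool → ZMod n × ZMod n := fun p =>
    (key n G (p.1, 1), if p.2 then (4 : ZMod n) ^ (p.1 : ℕ) else 0)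
  have hf : Function.Injective f := by
    rintro ⟨g, b⟩ ⟨g', b'⟩ h
    have h1 : key n G (g, 1) = key n G (g', 1) := congrArg Prod.fst h
    have h2 : g = g' := congrArg Prod.fst (key_inj hG h1)
    subst h2
    have h3 : (if b then (4 : ZMod n) ^ (g : ℕ) else 0)
        = (if b' then (4 : ZMod n) ^ (g : ℕ) else 0) := congrArg Prod.snd h
    have hn3 : 1 < n := by
      have h1 : 4 ^ 1 ≤ 4 ^ G := Nat.pow_le_pow_right (by norm_num) (by have := g.isLt; omega)
      omega
    have : Fact (1 < n) := ⟨hn3⟩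
    have h4 : (4 : ZMod n) ^ (g : ℕ) ≠ 0 := by
      rw [← four_pow_val hn g]
      exact Units.ne_zero _
    cases b <;> cases b'
    · rfl
    · exact absurd h3.symm h4
    · exact absurd h3 h4
    · rfl
  have hcard : 2 * G = ((univ : Finset (Fin G × Bool)).image f).card := by
    rw [Finset.card_image_of_injective _ hf, Finset.card_univ, Fintype.card_prod,
      Fintype.card_fin, Fintype.card_bool, mul_comm]
  rw [hcard]
  apply Pool.Agent.TransFree.transport (G := ZMod n) (ZMod.card n)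
    (fun r c => theta hn hG c r + c)
  · exact row_injective hn hG
  · intro c a b h
    exact (theta hn hG c).injective (add_right_cancel h)
  · intro p hp σ hσ hL
    rw [Finset.mem_image] at hp
    obtain ⟨⟨g, b⟩, _, rfl⟩ := hp
    have h := free hn hG σ hσ hL g
    cases b
    · exact h.1
    · exact h.2

/-- For every `n ≥ 1` some latin square of order `n` has at least `2 ⌊log₄ n⌋` entries lying in
no transversal. -/
theorem log_bound (n : ℕ) (hn : 0 < n) :
    ∃ L : Fin n → Fin n → Fin n,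
      (∀ i, Function.Injective (L i)) ∧
      (∀ j, Function.Injective (fun i => L i j)) ∧
      2 * Nat.log 4 n ≤ ({p : Fin n × Fin n |
              ¬ ∃ σ : Equiv.Perm (Fin n),
                  Function.Injective (fun i : Fin n => L i (σ i)) ∧ σ p.1 = p.2}).ncard := by
  rcases Nat.even_or_odd n with he | ho
  · obtain ⟨L, h1, h2, h3⟩ := Pool.Agent.TransFree.even_bound n hn he
    refine ⟨L, h1, h2, le_trans ?_ h3⟩
    have h4 : Nat.log 4 n ≤ n := Nat.log_le_self 4 n
    have h5 : 2 ≤ n := by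
      obtain ⟨k, hk⟩ := he
      omega
    exact Nat.mul_le_mul h5 h4
  · exact odd_bound n ho (Nat.log 4 n) (Nat.pow_log_le_self 4 hn.ne')

end Pool.Agent.Helper84.LatinLog
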